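import Pool.Agent.H441SX.Fin
import Pool.Agent.H441SX.A0
import Pool.Agent.H441SX.A1
import Pool.Agent.H441SX.A2
import Pool.Agent.H441SX.A3
import Pool.Agent.H441SX.A4
import Pool.Agent.H441SX.A5a
import Pool.Agent.H441SX.A5
import Pool.Agent.H441SX.A6
import Pool.Agent.H441SX.A8
import Pool.Agent.H441SX.A11
import Pool.Agent.H441SX.B0
import Pool.Agent.H441SX.B1a
import Pool.Agent.H441SX.B1
import Pool.Agent.H441SX.B2
import Pool.Agent.H441SX.B4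

/-! MP_e51904_co: for each `m ≥ 2`, `f_m(n)` grows linearly in `n` (the lower bound
`f_m(n) ≥ (n - m) / (2 ^ (m - 1) * m!)`), `f_m(n) = 1` for `m + 1 ≤ n ≤ (m + 2) ^ 2 / 4`,
`f_m(n) ≥ 2 ^ (1 / 3)` for `n > (m ^ 2 + m + 2) / 2`,
and `f_m(n) ≤ k` for `k ≤ m` and `n ≤ (m + k + 1) ^ 2 / 4`. -/

set_option autoImplicit false

open Pool.Agent.H441SX in
theorem Pool.Agent.Results.MP_e51904_co.LinearLowerBound.result (m n : ℕ) (hm : 2 ≤ m)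
    (hn : m + 1 ≤ n) :
    ((n : ℝ) - m) / (2 ^ (m - 1) * (m.factorial : ℝ)) ≤ fmn m n ∧
      (4 * n ≤ (m + 2) ^ 2 → fmn m n = 1) ∧
      (m ^ 2 + m + 2 < 2 * n → (2 : ℝ) ^ (1 / 3 : ℝ) ≤ fmn m n) ∧
      (∀ k : ℕ, 1 ≤ k → k ≤ m → 4 * n ≤ (m + k + 1) ^ 2 → fmn m n ≤ k) := by
  classical
  have h0 : A0 := a0 b0
  have h2 : A2 := a2 b0
  have h3 : A3 := a3 h0 a1 h2
  have h5 : A5 := a5 a5a h0
  have h6 : A6 := a6 h0 a4 h5
  have hB2 : B2 := b2 (b1 b0 b1a)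
  suffices hne : {r : ℝ | ∃ S : Finset (EuclideanSpace ℝ (Fin m)), S.card = n ∧
      affineSpan ℝ (S : Set (EuclideanSpace ℝ (Fin m))) = ⊤ ∧ r = bigT S / smallT S}.Nonempty from
    ⟨fin8 h0 h2 h6 m n (by omega) hne, (fin h0 h3 h6 hB2 m n (by omega) hn).2,
      fun hq => fin11 h0 m n hq hne, fun k hk hkm hk2 => b5 m n k hk hkm hn hk2⟩
  obtain ⟨S₀, v, hc, hs, -⟩ := hB2 m (m + 1) le_rfl (by nlinarith)
  have : Nonempty (Fin m) := ⟨⟨0, by omega⟩⟩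
  have : Nontrivial (EuclideanSpace ℝ (Fin m)) := inferInstance
  have : Infinite (EuclideanSpace ℝ (Fin m)) := Module.Free.infinite ℝ _
  obtain ⟨S, hSS, hSc⟩ := Infinite.exists_superset_card_eq S₀ n (by omega)
  refine ⟨_, S, hSc, ?_, rfl⟩
  rw [eq_top_iff, ← hs]
  exact affineSpan_mono ℝ (by exact_mod_cast hSS)
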